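import Mathlib
import Pool.Agent.H964.CW.Stm

/-! CW-PZ (helper665): second moment method. -/

set_option autoImplicit false

open MeasureTheory ProbabilityTheory Filter Finset

namespace Pool.Agent.H665.CW

open Pool.Agent.H964.QC Pool.Agent.H964.CW

theorem t_PZ : S_PZ := by
  intro Ω _ P _ Q m D hQ hQ0 hm hD h1 h2
  have hQi : Integrable Q P := hQ.integrable (by norm_num)
  have hQ2 : Integrable (fun ω => Q ω ^ 2) P := hQ.integrable_sq
  have hB : NullMeasurableSet {ω | Q ω < m / 4} P :=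
    nullMeasurableSet_lt hQ.aestronglyMeasurable.aemeasurable aemeasurable_const
  have hA : NullMeasurableSet ({ω | Q ω < m / 4}ᶜ) P := hB.compl
  have hD0 : 0 < D := by linarith
  have hpw : ∀ ω, Q ω ≤ m / 4 + ({ω | Q ω < m / 4}ᶜ).indicator (fun _ => 2 * D * m) ω +
      Q ω ^ 2 / (8 * D * m) := by
    intro ω
    have hpos : 0 < 8 * D * m := by positivity
    have e0 : 0 ≤ Q ω ^ 2 / (8 * D * m) := by positivity
    by_cases h : Q ω < m / 4
    · rw [Set.indicator_of_notMem (by simpa using h)]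
      linarith
    · rw [Set.indicator_of_mem (by simpa using h)]
      have e1 : Q ω ≤ 2 * D * m + Q ω ^ 2 / (8 * D * m) := by
        rw [← sub_nonneg]
        have e2 : 2 * D * m + Q ω ^ 2 / (8 * D * m) - Q ω =
            (Q ω - 4 * D * m) ^ 2 / (8 * D * m) := by
          field_simp
          ring
        rw [e2]
        positivity
      linarith
  have hint : Integrable (fun ω => ({ω | Q ω < m / 4}ᶜ).indicator (fun _ => 2 * D * m) ω) P :=
    (integrable_const (2 * D * m)).indicator₀ hA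
  have h3 : ∫ ω, Q ω ∂P ≤ ∫ ω, (m / 4 + ({ω | Q ω < m / 4}ᶜ).indicator (fun _ => 2 * D * m) ω +
      Q ω ^ 2 / (8 * D * m)) ∂P :=
    integral_mono hQi (((integrable_const _).add hint).add (hQ2.div_const _)) hpw
  have h4 : ∫ ω, (m / 4 + ({ω | Q ω < m / 4}ᶜ).indicator (fun _ => 2 * D * m) ω +
      Q ω ^ 2 / (8 * D * m)) ∂P = m / 4 + P.real ({ω | Q ω < m / 4}ᶜ) * (2 * D * m) +
        (∫ ω, Q ω ^ 2 ∂P) / (8 * D * m) := by
    have i1 : Integrable (fun ω => m / 4 +
        ({ω | Q ω < m / 4}ᶜ).indicator (fun _ => 2 * D * m) ω) P :=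
      (integrable_const _).add hint
    have i2 : Integrable (fun ω => Q ω ^ 2 / (8 * D * m)) P := hQ2.div_const _
    rw [integral_add i1 i2,
      integral_add (integrable_const _) hint, integral_indicator₀ hA, setIntegral_const,
      integral_div (8 * D * m) (fun ω => Q ω ^ 2), integral_const, probReal_univ, one_smul,
      smul_eq_mul]
  have h5 : P.real ({ω | Q ω < m / 4}ᶜ) = 1 - P.real {ω | Q ω < m / 4} :=
    probReal_compl_eq_one_sub₀ hB
  have h6 : (∫ ω, Q ω ^ 2 ∂P) / (8 * D * m) ≤ m / 8 := by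
    rw [div_le_iff₀ (by positivity)]
    calc ∫ ω, Q ω ^ 2 ∂P ≤ D * m ^ 2 := h2
      _ = m / 8 * (8 * D * m) := by ring
  rw [h4, h5] at h3
  set p := P.real {ω | Q ω < m / 4} with hp
  have h7 : m / 8 ≤ (1 - p) * (2 * D * m) := by linarith
  have h8 : 1 / (16 * D) ≤ 1 - p := by
    rw [div_le_iff₀ (by positivity)]
    have h9 : m * (1 / 8) ≤ m * ((1 - p) * (2 * D)) := by nlinarith
    have h10 := le_of_mul_le_mul_left h9 hm
    nlinarith
  linarith

end Pool.Agent.H665.CW
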